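import Pool.Agent.P.MP_41df0b_an.Family

set_option autoImplicit false

namespace Pool.Agent.Results.MP_41df0b_an.FreeLeftPart

/-- Admissible domains: open, connected, containing 0, and containing the segment from `z` to its
conjugate together with `z`. -/
def Admissible (G : Set ℂ) : Prop :=
  IsOpen G ∧ IsConnected G ∧ (0 : ℂ) ∈ G ∧ ∀ z ∈ G, segment ℝ z ((starRingEnd ℂ) z) ⊆ G

/-- The component containing 0 of the part of `G` on the left of the line `re = t`. -/
def leftPart (G : Set ℂ) (t : ℝ) : Set ℂ := connectedComponentIn {z : ℂ | z ∈ G ∧ z.re < t} 0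

/-- Harmonic measure at 0 of the boundary points of `leftPart G t` on the line `re = t`, by
Perron's method: the infimum of `u 0` over superharmonic `u` with values in `[0, 1]` whose lower
limit at each such boundary point is at least 1. -/
noncomputable def omega (G : Set ℂ) (t : ℝ) : ℝ :=
  sInf {x : ℝ | ∃ u : ℂ → ℝ,
    LowerSemicontinuousOn u (leftPart G t) ∧
    (∀ z ∈ leftPart G t, 0 ≤ u z ∧ u z ≤ 1) ∧
    (∀ a : ℂ, ∀ r : ℝ, 0 < r → Metric.closedBall a r ⊆ leftPart G t →
      (∫ θ in (0 : ℝ)..(2 * Real.pi), u (circleMap a r θ)) ≤ 2 * Real.pi * u a) ∧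
    (∀ ζ ∈ frontier (leftPart G t) ∩ {z : ℂ | z.re = t}, ∀ ε : ℝ, 0 < ε →
      ∀ᶠ z in nhdsWithin ζ (leftPart G t), 1 - ε < u z) ∧
    u 0 = x}

open Pool.Agent.P.MP_41df0b_an in
/-- One function `w`, positive near 0, is the cross-section function of admissible domains whose
part in the half plane `re < -1` is prescribed at will among regions under continuous
non-increasing profiles with values in `[40, 80]`. -/
theorem result : ∃ w : ℝ → ℝ, (∀ t : ℝ, 0 < t → t ≤ 1 / 12800 → 0 < w t) ∧
    ∀ L : ℝ → ℝ, Continuous L → Antitone L → (∀ x, 40 ≤ L x ∧ L x ≤ 80) →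
      ∃ D : Set ℂ, Admissible D ∧ (∀ z : ℂ, z.re < -1 → (z ∈ D ↔ |z.im| < L z.re)) ∧
        ∀ t : ℝ, 0 < t → omega D t = w t := by
  let ι : Type := {L : ℝ → ℝ // Antitone L ∧ ∀ x, 40 ≤ L x ∧ L x ≤ 80}
  let i0 : ι := ⟨fun _ => 40, fun _ _ _ => le_rfl, fun _ => by norm_num⟩
  have : Nonempty ι := ⟨i0⟩
  obtain ⟨g, p, c, d, he⟩ := fam_profiles (ι := ι) (L := fun i => i.1)
    (fun i => ⟨i.2.1, fun x => by linarith [(i.2.2 x).1], fun x => (i.2.2 x).2⟩)
    (fun i x => (i.2.2 x).1)
  have hb : (0 : ℝ) < 1 / 12800 := by norm_num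
  have small : ∀ i t, 0 < t → t ≤ 1 / 12800 →
      omega (CC (g i) (1 / 12800)) t = sInf (PerronSet (CC (g i) t) t) := by
    intro i t ht h
    have e : leftPart (CC (g i) (1 / 12800)) t = CC (g i) t := by
      rw [leftPart, CC_cut (p i) h,
        ((p i).preconnected_CC ht).connectedComponentIn ((p i).zero_mem_CC ht)]
    rw [omega, e]
    rfl
  have big : ∀ i t, 1 / 12800 < t → omega (CC (g i) (1 / 12800)) t = 0 := by
    intro i t h
    exact perron_zero (C := leftPart (CC (g i) (1 / 12800)) t)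
      (mem_connectedComponentIn (And.intro ((p i).zero_mem_CC hb) (by simpa using hb.trans h)))
      (fun z hz => (connectedComponentIn_subset _ _ hz).1.2) h
  refine ⟨omega (CC (g i0) (1 / 12800)), fun t ht h => ?_, fun L hc ha hr => ?_⟩
  · obtain ⟨ρ, a0, a1, -, a3⟩ := perron_link (p i0) ht (c i0 t)
    rw [small i0 t ht h, a3]
    exact VV_pos a0 a1
  · let i : ι := ⟨L, ha, hr⟩
    refine ⟨CC (g i) (1 / 12800), ⟨isOpen_CC _ _,
      ⟨⟨0, (p i).zero_mem_CC hb⟩, (p i).preconnected_CC hb⟩, (p i).zero_mem_CC hb,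
      fun _ hz => CC_segment hz⟩, fun z hz => ⟨?_, fun hz' => ?_⟩, fun t ht => ?_⟩
    · rintro ⟨⟨s, h1, h2⟩, -⟩
      have hs : z.re < min s (1 / 12800) := lt_min (by rcases h1 with h1 | h1 <;> linarith)
        (by linarith)
      have hm : z.re < min (min s (1 / 12800)) (-1) := lt_min hs hz
      exact h2.trans_le (((p i).anti (min_le_left _ _)).trans
        ((d i _ (min_le_right _ _)).2 _ hm))
    · have hopen : ∀ᶠ s in nhds z.re, |z.im| < L s ∧ s < -1 :=
        (hc.continuousAt.eventually (lt_mem_nhds hz')).and (gt_mem_nhds hz)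
      obtain ⟨s, hs, hs'⟩ := ((hopen.filter_mono nhdsWithin_le_nhds).and
        (self_mem_nhdsWithin (a := z.re) (s := Set.Ioi z.re))).exists
      refine ⟨⟨s, Or.inl hs', ?_⟩, by linarith⟩
      rw [min_eq_left (by linarith [hs.2])]
      exact hs.1.trans_le (d i s hs.2.le).1
    · rcases le_or_gt t (1 / 12800) with h | h
      · rw [small i t ht h, small i0 t ht h]
        exact perron_eq (p i) (p i0) ht (c i t) (c i0 t) (he i i0 t ht h)
      · rw [big i t h, big i0 t h]

end Pool.Agent.Results.MP_41df0b_an.FreeLeftPart
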